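import Pool.Agent.Q166.PT.Top
import Pool.Agent.Q166.PT.Loc
import Pool.Agent.Results.MP_fe58d8_pr.ExactModulus

/-!
# Exact modulus of continuity of the outer perimeter of the largest critical percolation cluster

Critical bond percolation on `ℤ²` in the box `Λ_n = {0, …, n}²`: `F` is the set of open edges,
uniformly distributed on the subsets of `edges n`, and `Largest n F v` says that the cluster of `v`
has the largest Euclidean diameter (`Pool/Agent/H342R2/Per/Plain.lean`). The closed lattice path
around this cluster, which traces the boundary of the unbounded component of its complement, is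
divided by `n`, run at constant speed on `[0, 1]`, and `T` is its number of steps divided by
`n ^ (7/4)` (`IsNatural n F v (f, T)` below). We consider the law of the pair `(f, T)` in
`X = C([0, 1], ℂ) × ℝ`; `H342L.lawOf n f` is the law of `f F`. These laws are relatively compact.

For every subsequential limit, almost surely, on every arc `f [a, b]`, `a < b`, in the open square
the modulus of continuity of the curve in its natural time is of the exact order
`h ^ (4/7) (log (1/h)) ^ (3/7)`.

Other definitions: `Pool/Agent/H342R3/Lim/{Defs,Law}.lean` (`pt`, `lawOf`),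
`Pool/Agent/H342R3/Tig/Defs.lean` (`poly`), `Pool/Agent/H984R3/Per/Defs.lean` (states of the
lattice path, `face`, `orb`), `Pool/Agent/H984R4/NP/Model.lean` (`X`).

The proof is a transfer (starting files `Y995/LG`, used for `NaturalPerimeter`) from the exploration
paths of countably many small rectangles, see `MP_fe58d8_pr.ExactModulus`.
-/

set_option autoImplicit false

namespace Pool.Agent.Results.MP_6bd702_pr.ExactModulus

open H342P.Plain H342L H984P H984N MeasureTheory Filter Topology

/-- `p = (f, T)`: `f` is the closed lattice path which traces the boundary of the unbounded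
component of the complement of the cluster of `v`, divided by `n` and with constant speed on
`[0, 1]`, and `T` is its number of steps divided by `n ^ (7/4)`. The path starts at a vertex `σ.1` of
the cluster with the face `face σ` of the unbounded component on its left; at each step it follows
the next edge (in clockwise order) if this edge is open, and turns clockwise around the vertex
otherwise, until it comes back to the initial state for the first time. -/
def IsNatural (n : ℕ) (F : Finset Edge) (v : ℤ × ℤ) (p : X) : Prop :=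
  ∃ (σ : St) (N : ℕ), 0 < N ∧ σ.1 ∈ cluster F v ∧ Outer F v (face σ) ∧
    orb (↑F) σ N = σ ∧ (∀ j, 0 < j → j < N → orb (↑F) σ j ≠ σ) ∧
    p = (H342T.poly (fun j => pt n (orb (↑F) σ j).1) N, (N : ℝ) / (n : ℝ) ^ (7/4 : ℝ))

/-- The open unit square. -/
def openSquare : Set ℂ := {z | 0 < z.re ∧ z.re < 1 ∧ 0 < z.im ∧ z.im < 1}

theorem result :
    (∀ (n : ℕ) (F : Finset Edge) (v : ℤ × ℤ), 0 < n → F ⊆ edges n → v ∈ box n →
      ∃ p, IsNatural n F v p) ∧
    ∀ (sel : (n : ℕ) → Finset Edge → ℤ × ℤ) (f : (n : ℕ) → Finset Edge → X),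
      (∀ n F, 0 < n → F ⊆ edges n → Largest n F (sel n F)) →
      (∀ n F, 0 < n → F ⊆ edges n → IsNatural n F (sel n F) (f n F)) →
      (∀ k : ℕ → ℕ, Tendsto k atTop atTop → ∃ (φ : ℕ → ℕ) (μ : ProbabilityMeasure X),
        StrictMono φ ∧ Tendsto (fun i => lawOf (k (φ i)) (f (k (φ i)))) atTop (𝓝 μ)) ∧
      ∀ (k : ℕ → ℕ), Tendsto k atTop atTop → ∀ μ : ProbabilityMeasure X,
        Tendsto (fun i => lawOf (k i) (f (k i))) atTop (𝓝 μ) →
        ∀ᵐ p ∂(μ : Measure X), 0 < p.2 ∧ volume {t : unitInterval | p.1 t ∉ openSquare} = 0 ∧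
          ∀ a b : unitInterval, a < b → (∀ t ∈ Set.Icc a b, p.1 t ∈ openSquare) →
            ∃ c C h₀ : ℝ, 0 < c ∧ 0 < C ∧ 0 < h₀ ∧ ∀ h : ℝ, 0 < h → h < h₀ →
              (∃ s t : unitInterval, a ≤ s ∧ s ≤ t ∧ t ≤ b ∧ ((t : ℝ) - s) * p.2 ≤ h ∧
                c * (h ^ (4/7 : ℝ) * Real.log (1 / h) ^ (3/7 : ℝ)) ≤ dist (p.1 s) (p.1 t)) ∧
              (∀ s t : unitInterval, s ∈ Set.Icc a b → t ∈ Set.Icc a b →
                |(s : ℝ) - t| * p.2 ≤ h →
                dist (p.1 s) (p.1 t) ≤ C * (h ^ (4/7 : ℝ) * Real.log (1 / h) ^ (3/7 : ℝ))) := by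
  refine ⟨fun n F v hn hF hv => Pool.Agent.Q166.PT.ex_nat n F v hn hF hv, fun sel f h1 h2 => ?_⟩
  have hsel : Pool.Agent.Y995.LG.Sel sel f := ⟨h1, h2⟩
  refine ⟨fun k hk => Pool.Agent.Y995.LG.tight0 sel f hsel k hk, fun k hk μ hμ => ?_⟩
  filter_upwards [Pool.Agent.Q166.PT.base hsel hk hμ, Pool.Agent.Q166.PT.locG
    (G := Pool.Agent.Q166.PT.ModG (fun h => h ^ (4/7 : ℝ) * Real.log (1 / h) ^ (3/7 : ℝ)))
    (fun R δ hδ hlim ν hν => by
      obtain ⟨-, c, C, hc, hC, h⟩ := Pool.Agent.Results.MP_fe58d8_pr.ExactModulus.result R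
      filter_upwards [h δ hδ hlim ν hν] with q q1
      exact ⟨q1.1, c, C, hc, hC, q1.2⟩) hsel hk hμ] with p b l
  refine ⟨b.pos, b.vol, fun a b' hab hin => ?_⟩
  refine Pool.Agent.Q166.PT.mod_exact ?_ Pool.Agent.Y995.LG.arc (fun q hq => hq) b.cl l hab hin
  filter_upwards [Ioo_mem_nhdsGT (zero_lt_one' ℝ)] with h hh
  have h3 : 0 ≤ Real.log (1 / h) := Real.log_nonneg (by
    rw [le_div_iff₀ hh.1]
    linarith [hh.2])
  have := hh.1
  positivity

end Pool.Agent.Results.MP_6bd702_pr.ExactModulus
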