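import Pool.Agent.Q166.PT.Top
import Pool.Agent.Q166.PT.Mink
import Pool.Agent.Results.MP_fe58d8_pr.ArcContent

/-!
# Natural time and Minkowski content of the outer perimeter of the largest critical cluster

Critical bond percolation on `ℤ²` in the box `Λ_n = {0, …, n}²`: `F` is the set of open edges,
uniformly distributed on the subsets of `edges n`, and `Largest n F v` says that the cluster of `v`
has the largest Euclidean diameter (`Pool/Agent/H342R2/Per/Plain.lean`). The closed lattice path
around this cluster, which traces the boundary of the unbounded component of its complement, is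
divided by `n`, run at constant speed on `[0, 1]`, and `T` is its number of steps divided by
`n ^ (7/4)` (`IsNatural n F v (f, T)` below). We consider the law of the pair `(f, T)` in
`X = C([0, 1], ℂ) × ℝ`; `H342L.lawOf n f` is the law of `f F`. These laws are relatively compact.

There are universal constants `c, C > 0` such that for every subsequential limit, almost surely:

* for every arc `f [a, b]` in the open square, for all small radii `ρ`, the natural time
  `T (t - s)` of EVERY subarc `f [s, t]` of natural time at least `C ρ ^ (7/4) log (1/ρ)` is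
  comparable with its `7/4`-dimensional Minkowski content at the radius `ρ`:
  `c T (t - s) ρ ^ (1/4) ≤ area of the ρ-neighbourhood of f [s, t] ≤ C T (t - s) ρ ^ (1/4)`;
* for every `ε > 0`, for all small radii `ρ`, the lower bound holds for all arcs `f [s, t]` of the
  whole perimeter with `t - s ≥ ε`.

Other definitions: `Pool/Agent/H342R3/Lim/{Defs,Law}.lean` (`pt`, `lawOf`),
`Pool/Agent/H342R3/Tig/Defs.lean` (`poly`), `Pool/Agent/H984R3/Per/Defs.lean` (states of the
lattice path, `face`, `orb`), `Pool/Agent/H984R4/NP/Model.lean` (`X`).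

The proof is a transfer (starting files `Y995/LG`, used for `NaturalPerimeter`) from the exploration
paths of countably many small rectangles, see `MP_fe58d8_pr.ArcContent`; for the lower bound for
long arcs the neighbourhoods of different parts have to be made disjoint, which uses the dimension
of the set of double times.
-/

set_option autoImplicit false

namespace Pool.Agent.Results.MP_6bd702_pr.MinkowskiContent

open H342P.Plain H342L H984P H984N MeasureTheory Filter Topology

/-- `p = (f, T)`: `f` is the closed lattice path which traces the boundary of the unbounded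
component of the complement of the cluster of `v`, divided by `n` and with constant speed on
`[0, 1]`, and `T` is its number of steps divided by `n ^ (7/4)`. The path starts at a vertex `σ.1` of
the cluster with the face `face σ` of the unbounded component on its left; at each step it follows
the next edge (in clockwise order) if this edge is open, and turns clockwise around the vertex
otherwise, until it comes back to the initial state for the first time. -/
def IsNatural (n : ℕ) (F : Finset Edge) (v : ℤ × ℤ) (p : X) : Prop :=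
  ∃ (σ : St) (N : ℕ), 0 < N ∧ σ.1 ∈ cluster F v ∧ Outer F v (face σ) ∧
    orb (↑F) σ N = σ ∧ (∀ j, 0 < j → j < N → orb (↑F) σ j ≠ σ) ∧
    p = (H342T.poly (fun j => pt n (orb (↑F) σ j).1) N, (N : ℝ) / (n : ℝ) ^ (7/4 : ℝ))

/-- The open unit square. -/
def openSquare : Set ℂ := {z | 0 < z.re ∧ z.re < 1 ∧ 0 < z.im ∧ z.im < 1}

theorem result :
    (∀ (n : ℕ) (F : Finset Edge) (v : ℤ × ℤ), 0 < n → F ⊆ edges n → v ∈ box n →
      ∃ p, IsNatural n F v p) ∧
    ∃ c C : ℝ, 0 < c ∧ 0 < C ∧
    ∀ (sel : (n : ℕ) → Finset Edge → ℤ × ℤ) (f : (n : ℕ) → Finset Edge → X),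
      (∀ n F, 0 < n → F ⊆ edges n → Largest n F (sel n F)) →
      (∀ n F, 0 < n → F ⊆ edges n → IsNatural n F (sel n F) (f n F)) →
      (∀ k : ℕ → ℕ, Tendsto k atTop atTop → ∃ (φ : ℕ → ℕ) (μ : ProbabilityMeasure X),
        StrictMono φ ∧ Tendsto (fun i => lawOf (k (φ i)) (f (k (φ i)))) atTop (𝓝 μ)) ∧
      ∀ (k : ℕ → ℕ), Tendsto k atTop atTop → ∀ μ : ProbabilityMeasure X,
        Tendsto (fun i => lawOf (k i) (f (k i))) atTop (𝓝 μ) →
        ∀ᵐ p ∂(μ : Measure X), 0 < p.2 ∧ volume {t : unitInterval | p.1 t ∉ openSquare} = 0 ∧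
          (∀ a b : unitInterval, (∀ t ∈ Set.Icc a b, p.1 t ∈ openSquare) →
            ∀ᶠ ρ : ℝ in 𝓝[>] 0, ∀ s t : unitInterval, a ≤ s → s ≤ t → t ≤ b →
              C * ρ ^ (7/4 : ℝ) * Real.log (1 / ρ) ≤ p.2 * ((t : ℝ) - s) →
              c * (p.2 * ((t : ℝ) - s)) * ρ ^ (1/4 : ℝ) ≤
                (volume (Metric.thickening ρ (p.1 '' Set.Icc s t))).toReal ∧
              (volume (Metric.thickening ρ (p.1 '' Set.Icc s t))).toReal ≤
                C * (p.2 * ((t : ℝ) - s)) * ρ ^ (1/4 : ℝ)) ∧
          ∀ ε : ℝ, 0 < ε → ∀ᶠ ρ : ℝ in 𝓝[>] 0, ∀ s t : unitInterval, ε ≤ (t : ℝ) - s →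
            c * (p.2 * ((t : ℝ) - s)) * ρ ^ (1/4 : ℝ) ≤
              (volume (Metric.thickening ρ (p.1 '' Set.Icc s t))).toReal := by
  refine ⟨fun n F v hn hF hv => Pool.Agent.Q166.PT.ex_nat n F v hn hF hv, ?_⟩
  obtain ⟨c, C, hc, hC, h⟩ := Pool.Agent.Results.MP_fe58d8_pr.ArcContent.result
  refine ⟨c / 8, C, by linarith, hC, fun sel f h1 h2 => ?_⟩
  have hsel : Pool.Agent.Y995.LG.Sel sel f := ⟨h1, h2⟩
  refine ⟨fun k hk => Pool.Agent.Y995.LG.tight0 sel f hsel k hk, fun k hk μ hμ => ?_⟩
  filter_upwards [Pool.Agent.Q166.PT.base hsel hk hμ, Pool.Agent.Q166.PT.locG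
    (G := Pool.Agent.Q166.PT.MinkG c C) (fun R δ hδ hlim ν hν => by
      filter_upwards [(h R).2 δ hδ hlim ν hν] with q q1
      exact ⟨q1.1, q1.2.1⟩) hsel hk hμ] with p b l
  have hl := Pool.Agent.Q166.PT.loc_two Pool.Agent.Y995.LG.arc (fun q hq => hq) b.cl l
  have hO : IsOpen {t : unitInterval | p.1 t ∈ Pool.Agent.Y977.LGF.sq} :=
    Pool.Agent.Q166.PT.isOpen_sq.preimage p.1.continuous
  refine ⟨b.pos, b.vol, fun a b' hin => ?_, fun ε hε => ?_⟩
  · exact Pool.Agent.Q166.PT.all_arcs hc hC b.pos b.db0 hO b.vol hl (a := a) (b := b') hin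
  · exact Pool.Agent.Q166.PT.long_low hc hC b.pos b.db0 hO b.vol hl hε

end Pool.Agent.Results.MP_6bd702_pr.MinkowskiContent
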