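import Pool.Agent.Q218.PM.Acc

/-!
Critical bond percolation: all boxes `Λ_n = {0, …, n}²` in one configuration of the edges of `ℤ²`.
-/

set_option autoImplicit false

namespace Pool.Agent.Results.MP_6bd702_pr.ScaleMixing

open H342P.Plain H342L H342T MeasureTheory Filter Topology
open H984H (Conf perc)
open Pool.Agent.Q218.PM (Same OfLargest Rule Fn data logAvg)

theorem rule_ex : ∃ sel γ, Rule sel γ := by
  refine ⟨Pool.Agent.Q218.PM.sel0, Pool.Agent.Q218.PM.tr0, fun n hn =>
    ⟨Pool.Agent.Q218.PM.sel0_of n, ?_, fun F hF => ?_⟩⟩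
  · intro F F' hF hF' hs
    unfold Pool.Agent.Q218.PM.tr0
    have h1 : Pool.Agent.Q218.PM.sel0 n F = Pool.Agent.Q218.PM.sel0 n F' :=
      Pool.Agent.Q218.PM.sel0_of n F F' hF hF' hs
    have h2 := Pool.Agent.Q218.PM.sel0_largest n F (Pool.Agent.Q218.PM.ex_largest n F)
    have h3 := (hs _).2 h2
    congr 1
    funext c
    rw [← h1]
    exact propext ⟨Pool.Agent.Q218.PM.trace_of h3, Pool.Agent.Q218.PM.trace_of h3.symm⟩
  · have h2 := Pool.Agent.Q218.PM.sel0_largest n F (Pool.Agent.Q218.PM.ex_largest n F)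
    refine ⟨h2, ?_⟩
    have h3 : ∃ c, IsTrace n F (Pool.Agent.Q218.PM.sel0 n F) c := t_EXI n F _ hn hF h2.1
    exact Classical.epsilon_spec h3

/-- Fix one configuration `ω` of independent fair coins on the edges of `ℤ²` and let `Fn n ω` be the
set of the open edges of `Λ_n`, for all `n` at the same time.
(0) Rules exist.
(1) Decorrelation of scales: a bounded function of the edges of `Λ_m` and a bounded function of the
largest clusters of `Λ_n` are almost uncorrelated for `m ≪ n`.
(2) Zero-one law: every tail event of a sequence of functions of the largest clusters of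
`Λ_1, Λ_2, …` has probability `0` or `1`.
(3) Almost sure limit theorem for the pair (traced perimeter, number of steps / `n ^ (7/4)`).
(4) Along any sequence `N_i → ∞`, the logarithmic averages of the point masses at the pairs of almost
every configuration and the logarithmic averages of their laws have the same weak limits.
(5) If the law of the rescaled perimeter `∂_n` converges to `μ` (the first claim of the problem),
then the logarithmic averages of the point masses at the `∂_n` of almost every single configuration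
converge to `μ`.
(6) Almost surely, every point of the support of every subsequential limit in law of the pairs is a
limit point of the sequence of the pairs of the single configuration.
(7) Law of the iterated logarithm along `n = 2 ^ k` for the number of steps, with a non-random
constant `K`. -/
theorem result :
    (∃ sel γ, Rule sel γ) ∧
    (∃ C c : ℝ, 0 < C ∧ 0 < c ∧ ∀ m n : ℕ, 1 ≤ m → m ≤ n →
      ∀ h : Finset Edge → ℝ, (∀ F, |h F| ≤ 1) →
      ∀ Φ : Finset Edge → ℝ, OfLargest n Φ → (∀ F, |Φ F| ≤ 1) →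
      |∫ ω, h (Fn m ω) * Φ (Fn n ω) ∂perc -
        (∫ ω, h (Fn m ω) ∂perc) * ∫ ω, Φ (Fn n ω) ∂perc| ≤ C * ((m : ℝ) / n) ^ c) ∧
    (∀ (α : Type) [MeasurableSpace α] (Φ : ℕ → Finset Edge → α), (∀ n, 0 < n → OfLargest n (Φ n)) →
      ∀ B : Set (ℕ → α), MeasurableSet B →
      (∀ x y : ℕ → α, (∀ᶠ n in atTop, x n = y n) → (x ∈ B ↔ y ∈ B)) →
      perc {ω | (fun n => Φ n (Fn n ω)) ∈ B} = 0 ∨ perc {ω | (fun n => Φ n (Fn n ω)) ∈ B} = 1) ∧
    (∀ sel γ, Rule sel γ →
      (∀ᵐ ω ∂perc, ∀ g : Curve × ℝ → ℝ, Continuous g → (∃ G : ℝ, ∀ x, |g x| ≤ G) →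
        Tendsto (fun N => logAvg (fun n => g (data sel γ n (Fn n ω))) N -
          logAvg (fun n => ∫ x, g x ∂(lawOf n (data sel γ n) : Measure (Curve × ℝ))) N)
          atTop (𝓝 0)) ∧
      (∀ᵐ ω ∂perc, ∀ φ : ℕ → ℕ, Tendsto φ atTop atTop → ∀ μ : ProbabilityMeasure (Curve × ℝ),
        ((∀ g : Curve × ℝ → ℝ, Continuous g → (∃ G : ℝ, ∀ x, |g x| ≤ G) →
          Tendsto (fun i => logAvg (fun n => g (data sel γ n (Fn n ω))) (φ i)) atTop
            (𝓝 (∫ x, g x ∂μ))) ↔
        (∀ g : Curve × ℝ → ℝ, Continuous g → (∃ G : ℝ, ∀ x, |g x| ≤ G) →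
          Tendsto (fun i => logAvg (fun n =>
            ∫ x, g x ∂(lawOf n (data sel γ n) : Measure (Curve × ℝ))) (φ i)) atTop
            (𝓝 (∫ x, g x ∂μ))))) ∧
      (∀ μ : ProbabilityMeasure Curve, Tendsto (fun n => lawOf n (γ n)) atTop (𝓝 μ) →
        ∀ᵐ ω ∂perc, ∀ g : Curve → ℝ, Continuous g → (∃ G : ℝ, ∀ x, |g x| ≤ G) →
          Tendsto (logAvg fun n => g (γ n (Fn n ω))) atTop (𝓝 (∫ x, g x ∂μ))) ∧
      (∀ᵐ ω ∂perc, ∀ (φ : ℕ → ℕ) (μ : ProbabilityMeasure (Curve × ℝ)), Tendsto φ atTop atTop →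
        Tendsto (fun i => lawOf (φ i) (data sel γ (φ i))) atTop (𝓝 μ) →
        ∀ x : Curve × ℝ, (∀ r : ℝ, 0 < r → 0 < (μ : Measure (Curve × ℝ)) (Metric.ball x r)) →
          ∀ r : ℝ, 0 < r → ∃ᶠ n in atTop, dist (data sel γ n (Fn n ω)) x < r)) ∧
    (∃ a A : ℝ, 0 < a ∧ ∀ sel γ, Rule sel γ → ∃ K : ℝ, a ≤ K ∧ K ≤ A ∧
      ∀ᵐ ω ∂perc, ∀ ε : ℝ, 0 < ε →
        (∀ᶠ k : ℕ in atTop, (data sel γ (2 ^ k) (Fn (2 ^ k) ω)).2 ≤
          (K + ε) * (Real.log k) ^ (1/8 : ℝ)) ∧
        ∃ᶠ k : ℕ in atTop, (K - ε) * (Real.log k) ^ (1/8 : ℝ) ≤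
          (data sel γ (2 ^ k) (Fn (2 ^ k) ω)).2) := by
  refine ⟨rule_ex, Pool.Agent.Q218.PM.dec, ?_, ?_, ?_⟩
  · intro α _ Φ hΦ B mB hB
    exact Pool.Agent.Q218.PM.zero_one hΦ mB hB
  · intro sel γ hR
    have h1 : ∀ n, 0 < n → OfLargest n (sel n) := fun n hn => (hR n hn).1
    have h3 : ∀ n, 0 < n → OfLargest n (γ n) := fun n hn => (hR n hn).2.1
    have h2 : ∀ n F, 0 < n → F ⊆ edges n → Largest n F (sel n F) :=
      fun n F hn hF => ((hR n hn).2.2 F hF).1
    have h4 : ∀ n F, 0 < n → F ⊆ edges n → IsTrace n F (sel n F) (γ n F) :=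
      fun n F hn hF => ((hR n hn).2.2 F hF).2
    have int_eq : ∀ (n : ℕ) (g : Curve × ℝ → ℝ), Continuous g →
        ∫ x, g x ∂(lawOf n (data sel γ n) : Measure (Curve × ℝ)) =
          ∫ ω, g (data sel γ n (Fn n ω)) ∂perc := by
      intro n g gc
      rw [← Pool.Agent.Q218.PM.Fn_law, integral_map
        (Pool.Agent.Q218.PM.Fn_meas n (data sel γ n)).aemeasurable gc.aestronglyMeasurable]
    have hmain : ∀ᵐ ω ∂perc, ∀ g : Curve × ℝ → ℝ, Continuous g → (∃ G : ℝ, ∀ x, |g x| ≤ G) →
        Tendsto (fun N => logAvg (fun n => g (data sel γ n (Fn n ω))) N -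
          logAvg (fun n => ∫ x, g x ∂(lawOf n (data sel γ n) : Measure (Curve × ℝ))) N)
          atTop (𝓝 0) := by
      filter_upwards [Pool.Agent.Q218.PM.aslt_gen (f := data sel γ)
        (Pool.Agent.Q218.PM.data_of h1 h3 h2)
        (fun ε hε => Pool.Agent.Q218.PM.data_tight h2 h4 hε)] with ω hω g gc hb
      refine (hω g gc hb).congr fun N => ?_
      unfold Pool.Agent.Q218.PM.lavp logAvg
      rw [← sub_div, ← Finset.sum_sub_distrib]
      congr 1
      apply Finset.sum_congr rfl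
      intro n _
      beta_reduce
      rw [int_eq n g gc]
      ring
    refine ⟨hmain, ?_, ?_, Pool.Agent.Q218.PM.acc (Pool.Agent.Q218.PM.data_of h1 h3 h2)⟩
    · filter_upwards [hmain] with ω hω φ hφ μ
      constructor
      · intro h g gc hb
        have h5 := (h g gc hb).sub ((hω g gc hb).comp hφ)
        rw [sub_zero] at h5
        refine h5.congr fun i => ?_
        simp only [Function.comp_apply]
        ring
      · intro h g gc hb
        have h5 := (h g gc hb).add ((hω g gc hb).comp hφ)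
        rw [add_zero] at h5
        refine h5.congr fun i => ?_
        simp only [Function.comp_apply]
        ring
    · intro μ hμ
      filter_upwards [hmain] with ω hω g gc hb
      obtain ⟨G, hG⟩ := hb
      have e1 : ∀ n, ∫ x, g x.1 ∂(lawOf n (data sel γ n) : Measure (Curve × ℝ)) =
          ∫ x, g x ∂(lawOf n (γ n) : Measure Curve) := by
        intro n
        rw [int_eq n (fun x => g x.1) (gc.comp continuous_fst), ← Pool.Agent.Q218.PM.Fn_law,
          integral_map (Pool.Agent.Q218.PM.Fn_meas n (γ n)).aemeasurable gc.aestronglyMeasurable]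
        rfl
      have h5 : Tendsto (fun n => ∫ x, g x ∂(lawOf n (γ n) : Measure Curve)) atTop
          (𝓝 (∫ x, g x ∂(μ : Measure Curve))) := by
        have h6 := ProbabilityMeasure.tendsto_iff_forall_integral_tendsto.1 hμ
        exact h6 (BoundedContinuousFunction.ofNormedAddCommGroup g gc G fun f => by
          rw [Real.norm_eq_abs]; exact hG f)
      have h6 := hω (fun x => g x.1) (gc.comp continuous_fst) ⟨G, fun x => hG _⟩
      simp only [e1] at h6
      have h7 := (Pool.Agent.Q218.PM.logAvg_tendsto h5).add h6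
      rw [add_zero] at h7
      refine h7.congr fun N => ?_
      exact add_sub_cancel _ _
  · obtain ⟨a, A, ha, h⟩ := Pool.Agent.Q218.PM.lil
    refine ⟨a, A, ha, fun sel γ hR => ?_⟩
    obtain ⟨K, h1, h2, h3⟩ := h sel (fun n hn => (hR n hn).1)
      (fun n F hn hF => ((hR n hn).2.2 F hF).1)
    exact ⟨K, h1, h2, h3⟩

end Pool.Agent.Results.MP_6bd702_pr.ScaleMixing
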