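import Pool.Agent.Q166.PT.Top
import Pool.Agent.Y995.TP.Fin
import Pool.Agent.Results.MP_fe58d8_pr.DoublePoints

/-!
# Thick points of the outer perimeter of the largest critical percolation cluster

Critical bond percolation on `ℤ²` in the box `Λ_n = {0, …, n}²`: `F` is the set of open edges,
uniformly distributed on the subsets of `edges n`, and `Largest n F v` says that the cluster of `v`
has the largest Euclidean diameter (`Pool/Agent/H342R2/Per/Plain.lean`). The closed lattice path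
around this cluster, which traces the boundary of the unbounded component of its complement, is
divided by `n`, run at constant speed on `[0, 1]`, and `T` is its number of steps divided by
`n ^ (7/4)` (`IsNatural n F v (f, T)` below). We consider the law of the pair `(f, T)` in
`X = C([0, 1], ℂ) × ℝ`; `H342L.lawOf n f` is the law of `f F`. These laws are relatively compact.

There are universal constants `c`, `C`, `θ₀` such that for every subsequential limit, almost surely,
simultaneously for all `0 < θ ≤ θ₀` and all `s < t`, the times in `[s, t]` at which the curve is at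
a `θ`-thick point of the open square have Hausdorff dimension between `1 - C θ ^ 8` and
`1 - c θ ^ 8`, and the `θ`-thick points of the arc `f [s, t]` in the open square have Hausdorff
dimension between `7/4 (1 - C θ ^ 8)` and `7/4 (1 - c θ ^ 8)`. A point `z` is `θ`-thick if for
arbitrarily small `r` the natural time which the curve spends in the disc of radius `r` around `z`
is at least `θ r ^ (7/4) (log (1/r)) ^ (1/8)`.

Other definitions: `Pool/Agent/H342R3/Lim/{Defs,Law}.lean` (`pt`, `lawOf`),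
`Pool/Agent/H342R3/Tig/Defs.lean` (`poly`), `Pool/Agent/H984R3/Per/Defs.lean` (states of the
lattice path, `face`, `orb`), `Pool/Agent/H984R4/NP/Model.lean` (`X`).

The proof is a transfer (starting files `Y995/LG`, used for `NaturalPerimeter`) from the exploration
paths of countably many small rectangles, see `MP_b3e76a_pr.ThickPoints`; occupation times of discs
are not a local property of the curve, and the double points (`DoublePoints` of this folder and of
`MP_fe58d8_pr`) have to be removed.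
-/

set_option autoImplicit false

namespace Pool.Agent.Results.MP_6bd702_pr.ThickPoints

open H342P.Plain H342L H984P H984N MeasureTheory Filter Topology
open scoped ENNReal

/-- `p = (f, T)`: `f` is the closed lattice path which traces the boundary of the unbounded
component of the complement of the cluster of `v`, divided by `n` and with constant speed on
`[0, 1]`, and `T` is its number of steps divided by `n ^ (7/4)`. The path starts at a vertex `σ.1` of
the cluster with the face `face σ` of the unbounded component on its left; at each step it follows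
the next edge (in clockwise order) if this edge is open, and turns clockwise around the vertex
otherwise, until it comes back to the initial state for the first time. -/
def IsNatural (n : ℕ) (F : Finset Edge) (v : ℤ × ℤ) (p : X) : Prop :=
  ∃ (σ : St) (N : ℕ), 0 < N ∧ σ.1 ∈ cluster F v ∧ Outer F v (face σ) ∧
    orb (↑F) σ N = σ ∧ (∀ j, 0 < j → j < N → orb (↑F) σ j ≠ σ) ∧
    p = (H342T.poly (fun j => pt n (orb (↑F) σ j).1) N, (N : ℝ) / (n : ℝ) ^ (7/4 : ℝ))

/-- The open unit square. -/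
def openSquare : Set ℂ := {z | 0 < z.re ∧ z.re < 1 ∧ 0 < z.im ∧ z.im < 1}

/-- `z` is a `θ`-thick point of `p = (f, T)`: for arbitrarily small `r > 0` the time
`T |{v : dist (f v) z ≤ r}|` spent near `z` is at least `θ r ^ (7/4) (log (1/r)) ^ (1/8)`. -/
def Thick (θ : ℝ) (p : X) (z : ℂ) : Prop :=
  ∃ᶠ r : ℝ in 𝓝[>] 0, θ * (r ^ (7/4 : ℝ) * Real.log (1 / r) ^ (1/8 : ℝ)) ≤
    p.2 * (volume {v : unitInterval | dist (p.1 v) z ≤ r}).toReal

theorem result :
    (∀ (n : ℕ) (F : Finset Edge) (v : ℤ × ℤ), 0 < n → F ⊆ edges n → v ∈ box n →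
      ∃ p, IsNatural n F v p) ∧
    ∃ c C θ₀ : ℝ, 0 < c ∧ 0 < C ∧ 0 < θ₀ ∧ C * θ₀ ^ 8 < 1 ∧
    ∀ (sel : (n : ℕ) → Finset Edge → ℤ × ℤ) (f : (n : ℕ) → Finset Edge → X),
      (∀ n F, 0 < n → F ⊆ edges n → Largest n F (sel n F)) →
      (∀ n F, 0 < n → F ⊆ edges n → IsNatural n F (sel n F) (f n F)) →
      (∀ k : ℕ → ℕ, Tendsto k atTop atTop → ∃ (φ : ℕ → ℕ) (μ : ProbabilityMeasure X),
        StrictMono φ ∧ Tendsto (fun i => lawOf (k (φ i)) (f (k (φ i)))) atTop (𝓝 μ)) ∧
      ∀ (k : ℕ → ℕ), Tendsto k atTop atTop → ∀ μ : ProbabilityMeasure X,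
        Tendsto (fun i => lawOf (k i) (f (k i))) atTop (𝓝 μ) →
        ∀ᵐ p ∂(μ : Measure X), 0 < p.2 ∧ volume {t : unitInterval | p.1 t ∉ openSquare} = 0 ∧
          ∀ θ : ℝ, 0 < θ → θ ≤ θ₀ → ∀ s t : unitInterval, s < t →
            (ENNReal.ofReal (1 - C * θ ^ 8) ≤
              dimH {u | u ∈ Set.Icc s t ∧ p.1 u ∈ openSquare ∧ Thick θ p (p.1 u)} ∧
            dimH {u | u ∈ Set.Icc s t ∧ p.1 u ∈ openSquare ∧ Thick θ p (p.1 u)} ≤
              ENNReal.ofReal (1 - c * θ ^ 8)) ∧
            (ENNReal.ofReal (7 / 4 * (1 - C * θ ^ 8)) ≤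
              dimH {z | z ∈ p.1 '' Set.Icc s t ∧ z ∈ openSquare ∧ Thick θ p z} ∧
            dimH {z | z ∈ p.1 '' Set.Icc s t ∧ z ∈ openSquare ∧ Thick θ p z} ≤
              ENNReal.ofReal (7 / 4 * (1 - c * θ ^ 8))) := by
  refine ⟨fun n F v hn hF hv => Pool.Agent.Q166.PT.ex_nat n F v hn hF hv, ?_⟩
  obtain ⟨c, C, θ1, hc, hC, hθ1, hCθ1, h⟩ := Pool.Agent.Y995.TP.thick_times
  obtain ⟨θ0, hθ0⟩ : ∃ θ0 : ℝ, θ0 = min θ1 (min 1 (1 / (2 * C))) := ⟨_, rfl⟩
  have p0 : 0 < θ0 := by rw [hθ0]; positivity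
  have p1 : θ0 ≤ θ1 := by rw [hθ0]; exact min_le_left _ _
  have p2 : θ0 ≤ 1 := by rw [hθ0]; exact (min_le_right _ _).trans (min_le_left _ _)
  have p3 : θ0 ≤ 1 / (2 * C) := by rw [hθ0]; exact (min_le_right _ _).trans (min_le_right _ _)
  have hCθ : C * θ0 ^ 8 ≤ 1 / 2 := by
    have h1 : θ0 ^ 8 ≤ θ0 := by
      calc θ0 ^ 8 ≤ θ0 ^ 1 := pow_le_pow_of_le_one p0.le p2 (by norm_num)
        _ = θ0 := pow_one _
    have h2 : C * θ0 ^ 8 ≤ C * (1 / (2 * C)) := mul_le_mul_of_nonneg_left (h1.trans p3) hC.le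
    have h3 : C * (1 / (2 * C)) = 1 / 2 := by field_simp
    linarith
  refine ⟨c, C, θ0, hc, hC, p0, by linarith, fun sel f h1 h2 => ?_⟩
  have hsel : Pool.Agent.Y995.LG.Sel sel f := ⟨h1, h2⟩
  refine ⟨fun k hk => Pool.Agent.Y995.LG.tight0 sel f hsel k hk, fun k hk μ hμ => ?_⟩
  filter_upwards [Pool.Agent.Q166.PT.base hsel hk hμ, Pool.Agent.Q166.PT.locG
    (G := Pool.Agent.Q166.PT.TG c C θ0) (fun R δ hδ hlim ν hν => by
      filter_upwards [(h R).2 δ hδ hlim ν hν,
        (Pool.Agent.Results.MP_fe58d8_pr.DoublePoints.result R).2 δ hδ hlim ν hν] with q q1 q2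
      exact ⟨q1.1, q2.2.1.le, fun θ g1 g2 => q1.2.2 θ g1 (g2.trans p1)⟩) hsel hk hμ] with p b l
  refine ⟨b.pos, b.vol, fun θ hθ hθ' s t hst => ?_⟩
  obtain ⟨k1, k2⟩ := Pool.Agent.Q166.PT.thick Pool.Agent.Y995.LG.arc Pool.Agent.Y995.LG.cov
    (fun q hq => hq) hC hCθ b.cl b.ex b.vol l b.dbd hθ hθ' hst
  have e2 : {z | z ∈ p.1 '' Set.Icc s t ∧ z ∈ openSquare ∧ Thick θ p z} =
      p.1 '' {u | u ∈ Set.Icc s t ∧ p.1 u ∈ openSquare ∧ Thick θ p (p.1 u)} := by
    ext z
    constructor
    · rintro ⟨⟨u, hu, rfl⟩, hz⟩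
      exact ⟨u, ⟨hu, hz⟩, rfl⟩
    · rintro ⟨u, ⟨hu, hz⟩, rfl⟩
      exact ⟨⟨u, hu, rfl⟩, hz⟩
  have e3 : (7 / 4 : ENNReal) = ENNReal.ofReal (7 / 4) := by
    rw [ENNReal.ofReal_div_of_pos (by norm_num)]
    norm_num
  have e4 := b.uni {u | u ∈ Set.Icc s t ∧ p.1 u ∈ openSquare ∧ Thick θ p (p.1 u)}
    (fun u hu => hu.2.1)
  rw [e2, e4, e3, ENNReal.ofReal_mul (by norm_num), ENNReal.ofReal_mul (by norm_num)]
  exact ⟨⟨k1, k2⟩, mul_le_mul_right k1 _, mul_le_mul_right k2 _⟩

end Pool.Agent.Results.MP_6bd702_pr.ThickPoints
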